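import Pool.Agent.Helper5K9.ZN.Stm

/-!
# Zombies on the torus of any side `n` (odd or even): one zombie, deterministic facts

The position of a zombie relative to the survivor is a pair of integers in
`[-(n / 2), (n - 1) / 2]`; if `n` is even, a tie (distance `n / 2`) is represented by `- n / 2`.
The path of a zombie is given as a relation: at a tie the zombie may move in both directions.
`c t = true` if the zombie moves horizontally at time `t` (not used on the axes), `e t = true` if the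
survivor moves to the east.
-/

set_option autoImplicit false

namespace Pool.Agent.Helper5K9.XE

open Finset Pool.Agent.Helper5K9.ZN

/-- `n / 2` -/
def hb (n : ℕ) : ℤ := ((n / 2 : ℕ) : ℤ)
/-- `(n - 1) / 2` -/
def hs (n : ℕ) : ℤ := (((n - 1) / 2 : ℕ) : ℤ)

/-- the possible relative positions -/
noncomputable def Bx (n : ℕ) : Finset (ℤ × ℤ) := Icc (-(hb n)) (hs n) ×ˢ Icc (-(hb n)) (hs n)

/-- wrap around -/
def wn (n : ℕ) (a : ℤ) : ℤ := if a < -(hb n) then a + n else a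

/-- the coordinate `a` is changed to `a'` by a move which shortens the distance -/
def Tw (n : ℕ) (a a' : ℤ) : Prop :=
  (0 < a ∧ a' = a - 1) ∨ (a < 0 ∧ a' = a + 1) ∨ (a = 0 ∧ a' = 0) ∨ (2 * a = -(n : ℤ) ∧ a' = -a - 1)

/-- the possible moves of a zombie -/
def ZM (n : ℕ) (c : Bool) (q m : ℤ × ℤ) : Prop :=
  ((q.2 = 0 ∨ (c = true ∧ q.1 ≠ 0)) ∧ m.2 = q.2 ∧ Tw n q.1 m.1) ∨
  (q.2 ≠ 0 ∧ (c = false ∨ q.1 = 0) ∧ m.1 = q.1 ∧ Tw n q.2 m.2)

/-- the move of the survivor -/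
def sn (n : ℕ) (e : Bool) (q : ℤ × ℤ) : ℤ × ℤ := if e then (wn n (q.1 - 1), q.2) else (q.1, wn n (q.2 - 1))

/-- a path of a zombie: `x t` are the positions at its turns, `m t` the positions after its moves -/
structure Pth (n : ℕ) (c e : ℕ → Bool) (x m : ℕ → ℤ × ℤ) : Prop where
  box : x 0 ∈ Bx n
  zm : ∀ t, ZM n (c t) (x t) (m t)
  sm : ∀ t, x (t + 1) = sn n (e t) (m t)

/-- absorbed: the zombie is and stays behind the survivor -/
def Ab (n : ℕ) (q : ℤ × ℤ) : Prop := q.1 ≤ 0 ∧ q.2 ≤ 0 ∧ -q.1 - q.2 ≤ hs n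

/-- the shells of the (closed) south-west quadrant reached after crossing an axis -/
def Sh (n : ℕ) (q : ℤ × ℤ) : Prop := q.1 ≤ 0 ∧ q.2 ≤ 0 ∧ hs n < -q.1 - q.2 ∧ -q.1 - q.2 ≤ hb n + 1

/-- the north sector (not far in the west) -/
def No (n : ℕ) (q : ℤ × ℤ) : Prop := q.1 ≤ 0 ∧ -(n : ℤ) < 4 * q.1 ∧ 0 < q.2

/-- the east sector (not far in the south) -/
def Ea (n : ℕ) (q : ℤ × ℤ) : Prop := q.2 ≤ 0 ∧ -(n : ℤ) < 4 * q.2 ∧ 0 < q.1

/-- on the line `x = 0`, or just having crossed it -/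
def CX (x : ℕ → ℤ × ℤ) (s : ℕ) : Prop := (x s).1 = 0 ∨ ((x s).1 < 0 ∧ ∃ s', s' + 1 = s ∧ 0 < (x s').1)

/-- on the line `y = 0`, or just having crossed it -/
def CY (x : ℕ → ℤ × ℤ) (s : ℕ) : Prop := (x s).2 = 0 ∨ ((x s).2 < 0 ∧ ∃ s', s' + 1 = s ∧ 0 < (x s').2)

/-- after crossing `x = 0` -/
def S_TOUCHX : Prop := ∀ (n R K s t : ℕ) (c e : ℕ → Bool) (x m : ℕ → ℤ × ℤ),
  4000 * (R + K + 1) ≤ n → Pth n c e x m → GC K t c → Tube R e t → s ≤ t → CX x s →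
  No n (x t) ∨ Ab n (x t) ∨ ∃ s', s ≤ s' ∧ s' ≤ t ∧ Sh n (x s')

/-- after crossing `y = 0` -/
def S_TOUCHY : Prop := ∀ (n R K s t : ℕ) (c e : ℕ → Bool) (x m : ℕ → ℤ × ℤ),
  4000 * (R + K + 1) ≤ n → Pth n c e x m → GC K t c → Tube R e t → s ≤ t → CY x s →
  Ea n (x t) ∨ Ab n (x t) ∨ ∃ s', s ≤ s' ∧ s' ≤ t ∧ Sh n (x s')

/-- after a visit of the shells a zombie is in the shells, in the north or east sector or absorbed;
in particular it is never in the (open) north-east quadrant -/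
def S_SHELL : Prop := ∀ (n R K s t : ℕ) (c e : ℕ → Bool) (x m : ℕ → ℤ × ℤ),
  4000 * (R + K + 1) ≤ n → Pth n c e x m → GC K t c → Tube R e t → s ≤ t → Sh n (x s) →
  Sh n (x t) ∨ No n (x t) ∨ Ea n (x t) ∨ Ab n (x t)

/-- absorption -/
def S_ABSN : Prop := ∀ (n R K T₁ T₂ T : ℕ) (c e : ℕ → Bool) (x m : ℕ → ℤ × ℤ),
  4000 * (R + K + 1) ≤ n → Pth n c e x m → GC K T c → Tube R e T → T₁ + T₂ + 20 * n ≤ T →
  (∃ s ≤ T₁, 3 * (n : ℤ) < |WW c s|) →
  (∀ s ≤ T₁ + 10 * n, ∃ w ≤ T₂, 3 * (n : ℤ) < |WW c (s + w) - WW c s|) → Ab n (x T)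

end Pool.Agent.Helper5K9.XE
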