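import Pool.Agent.Helper5K9.XE.Defs

/-!
# Linear form of one round
-/

set_option autoImplicit false

namespace Pool.Agent.Helper5K9.XE

open Finset Pool.Agent.Helper5K9.ZN

theorem hbs (n : ℕ) (hn : 1 ≤ n) : hs n + hb n + 1 = n ∧ hs n ≤ hb n ∧ hb n ≤ hs n + 1 ∧ 0 ≤ hs n := by
  unfold hs hb; omega

/-- the move of the zombie, linear form -/
def ZL (n : ℕ) (sc x y x1 y1 : ℤ) : Prop :=
  (((y = 0 ∨ (sc = 1 ∧ x ≠ 0)) ∧ y1 = y ∧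
      ((0 < x ∧ x1 = x - 1) ∨ (x < 0 ∧ x1 = x + 1) ∨ (x = 0 ∧ x1 = 0) ∨
        (2 * x = -(n : ℤ) ∧ x1 = -x - 1))) ∨
    (y ≠ 0 ∧ (sc = -1 ∨ x = 0) ∧ x1 = x ∧
      ((0 < y ∧ y1 = y - 1) ∨ (y < 0 ∧ y1 = y + 1) ∨ (y = 0 ∧ y1 = 0) ∨
        (2 * y = -(n : ℤ) ∧ y1 = -y - 1))))

/-- the move of the survivor, linear form -/
def SL (n : ℕ) (se x1 y1 x' y' : ℤ) : Prop :=
  ((se = 1 ∧ y' = y1 ∧ ((x1 - 1 < -(hb n) ∧ x' = x1 - 1 + n) ∨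
      (-(hb n) ≤ x1 - 1 ∧ x' = x1 - 1))) ∨
    (se = -1 ∧ x' = x1 ∧ ((y1 - 1 < -(hb n) ∧ y' = y1 - 1 + n) ∨
      (-(hb n) ≤ y1 - 1 ∧ y' = y1 - 1))))

theorem sgc (b : Bool) : sgn b = 1 ∨ sgn b = -1 := by cases b <;> simp [sgn]

theorem WWs (c : ℕ → Bool) (t : ℕ) : WW c (t + 1) = WW c t + sgn (c t) := by
  simp [WW, Finset.sum_range_succ]

theorem WW0 (c : ℕ → Bool) : WW c 0 = 0 := by simp [WW]

theorem zm_lin {n : ℕ} {c : Bool} {q m : ℤ × ℤ} (h : ZM n c q m) :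
    ZL n (sgn c) q.1 q.2 m.1 m.2 := by
  unfold ZM Tw at h
  unfold ZL
  cases c
  · simp only [sgn, Bool.false_eq_true, false_and, or_false, if_false, true_or, true_and] at h ⊢
    omega
  · simp only [sgn, true_and, if_true, reduceCtorEq, false_or] at h ⊢
    omega

theorem sn_lin (n : ℕ) (e : Bool) (m : ℤ × ℤ) :
    SL n (sgn e) m.1 m.2 (sn n e m).1 (sn n e m).2 := by
  have key : ∀ a : ℤ, (a - 1 < -(hb n) ∧ wn n (a - 1) = a - 1 + n) ∨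
      (-(hb n) ≤ a - 1 ∧ wn n (a - 1) = a - 1) := by
    intro a
    unfold wn
    by_cases ha : a - 1 < -(hb n)
    · left; rw [if_pos ha]; exact ⟨ha, rfl⟩
    · right; rw [if_neg ha]; exact ⟨by omega, rfl⟩
  unfold SL sn
  cases e with
  | false =>
    right
    simp only [sgn, Bool.false_eq_true, if_false]
    exact ⟨trivial, trivial, key m.2⟩
  | true =>
    left
    simp only [sgn, if_true]
    exact ⟨trivial, trivial, key m.1⟩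

theorem Pth.lin {n : ℕ} {c e : ℕ → Bool} {x m : ℕ → ℤ × ℤ} (hP : Pth n c e x m) (t : ℕ) :
    ZL n (sgn (c t)) (x t).1 (x t).2 (m t).1 (m t).2 ∧
    SL n (sgn (e t)) (m t).1 (m t).2 (x (t + 1)).1 (x (t + 1)).2 := by
  refine ⟨zm_lin (hP.zm t), ?_⟩
  rw [hP.sm t]
  exact sn_lin _ _ _

theorem mem_Bx {n : ℕ} {q : ℤ × ℤ} :
    q ∈ Bx n ↔ (-(hb n) ≤ q.1 ∧ q.1 ≤ hs n) ∧ (-(hb n) ≤ q.2 ∧ q.2 ≤ hs n) := by
  simp [Bx, Finset.mem_product]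

theorem Pth.bx {n : ℕ} {c e : ℕ → Bool} {x m : ℕ → ℤ × ℤ} (hn : 3 ≤ n) (hP : Pth n c e x m)
    (t : ℕ) : ((-(hb n) ≤ (x t).1 ∧ (x t).1 ≤ hs n) ∧ (-(hb n) ≤ (x t).2 ∧ (x t).2 ≤ hs n)) ∧
      ((-(hb n) ≤ (m t).1 ∧ (m t).1 ≤ hs n) ∧ (-(hb n) ≤ (m t).2 ∧ (m t).2 ≤ hs n)) := by
  obtain ⟨n1, n2, n3, n4⟩ := hbs n (by omega)
  have key : ∀ t, ((-(hb n) ≤ (x t).1 ∧ (x t).1 ≤ hs n) ∧ (-(hb n) ≤ (x t).2 ∧ (x t).2 ≤ hs n)) →
      ((-(hb n) ≤ (m t).1 ∧ (m t).1 ≤ hs n) ∧ (-(hb n) ≤ (m t).2 ∧ (m t).2 ≤ hs n)) := by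
    intro t ht
    have := (hP.lin t).1
    unfold ZL at this
    omega
  induction t with
  | zero => exact ⟨mem_Bx.mp hP.box, key 0 (mem_Bx.mp hP.box)⟩
  | succ t ih =>
    have h2 := (hP.lin t).2
    unfold SL at h2
    have : ((-(hb n) ≤ (x (t + 1)).1 ∧ (x (t + 1)).1 ≤ hs n) ∧
        (-(hb n) ≤ (x (t + 1)).2 ∧ (x (t + 1)).2 ≤ hs n)) := by omega
    exact ⟨this, key _ this⟩

/-! ## symmetry -/

theorem ZM_swap {n : ℕ} (hn : 1 ≤ n) {c : Bool} {q m : ℤ × ℤ} (h : ZM n c q m) :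
    ZM n (!c) q.swap m.swap := by
  by_cases h0 : q.1 = 0 ∧ q.2 = 0
  · unfold ZM Tw at h ⊢
    simp only [Prod.fst_swap, Prod.snd_swap]
    left
    refine ⟨Or.inl h0.1, ?_, ?_⟩ <;> omega
  · unfold ZM at h ⊢
    simp only [Prod.fst_swap, Prod.snd_swap]
    cases c <;> simp only [Bool.not_false, Bool.not_true, Bool.false_eq_true, false_and, or_false,
      true_and, true_or, reduceCtorEq, false_or] at h ⊢ <;>
      rcases h with ⟨h1, h2, h3⟩ | ⟨h1, h2, h3⟩ <;> tauto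

theorem sn_swap (n : ℕ) (e : Bool) (q : ℤ × ℤ) : sn n (!e) q.swap = (sn n e q).swap := by
  cases e <;> simp [sn]

theorem Pth.swap {n : ℕ} (hn : 1 ≤ n) {c e : ℕ → Bool} {x m : ℕ → ℤ × ℤ} (hP : Pth n c e x m) :
    Pth n (fun s => !(c s)) (fun s => !(e s)) (fun s => (x s).swap) (fun s => (m s).swap) := by
  refine ⟨?_, fun t => ZM_swap hn (hP.zm t), fun t => ?_⟩
  · have := mem_Bx.mp hP.box
    exact mem_Bx.mpr ⟨this.2, this.1⟩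
  · rw [sn_swap, hP.sm t]

theorem sgn_not (b : Bool) : sgn (!b) = - sgn b := by cases b <;> simp [sgn]

theorem WW_not (c : ℕ → Bool) (t : ℕ) : WW (fun s => !(c s)) t = - WW c t := by
  simp [WW, sgn_not]

theorem GC_not {K T : ℕ} {c : ℕ → Bool} (hc : GC K T c) : GC K T (fun s => !(c s)) := by
  intro s w hw
  have := hc s w hw
  rw [WW_not, WW_not]
  have e : (-WW c (s + w) - -WW c s) ^ 2 = (WW c (s + w) - WW c s) ^ 2 := by ring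
  rw [e]; exact this

theorem Tube_not {R t : ℕ} {e : ℕ → Bool} (he : Tube R e t) : Tube R (fun s => !(e s)) t := by
  intro s hs
  rw [WW_not, abs_neg]
  exact he s hs

theorem GC.win {K T : ℕ} {c : ℕ → Bool} (hc : GC K T c) {s u : ℕ} (hsu : s ≤ u) (hu : u ≤ T) :
    (WW c u - WW c s) ^ 2 ≤ (K : ℤ) * ((u : ℤ) - s) := by
  have := hc s (u - s) (by omega)
  rw [show s + (u - s) = u by omega] at this
  rw [← Nat.cast_sub hsu]; exact this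

theorem Tube.bnd {R t : ℕ} {e : ℕ → Bool} (he : Tube R e t) {s : ℕ} (hs : s ≤ t) :
    -(R : ℤ) ≤ WW e s ∧ WW e s ≤ R := abs_le.mp (he s hs)

theorem GC.mn {K T T' : ℕ} {c : ℕ → Bool} (hT : T' ≤ T) (hc : GC K T c) : GC K T' c :=
  fun s w hw => hc s w (hw.trans hT)

theorem Tube.mn {R T T' : ℕ} {e : ℕ → Bool} (hT : T' ≤ T) (he : Tube R e T) : Tube R e T' :=
  fun s hs => he s (hs.trans hT)

end Pool.Agent.Helper5K9.XE
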