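import Pool.Agent.Helper5K9.XE.Kit

/-!
# After crossing an axis; the shells
-/

set_option autoImplicit false

namespace Pool.Agent.Helper5K9.XE

open Finset Pool.Agent.Helper5K9.ZN

variable {n R K : ℕ} {c e : ℕ → Bool} {x m : ℕ → ℤ × ℤ}

theorem ab_step (hn : 8 ≤ n) (hP : Pth n c e x m) (t : ℕ) (h : Ab n (x t)) : Ab n (x (t + 1)) := by
  obtain ⟨n1, n2, n3, n4⟩ := hbs n (by omega)
  obtain ⟨h1, h2⟩ := hP.lin t
  have s1 := sgc (c t)
  have s2 := sgc (e t)
  unfold Ab ZL SL at *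
  omega

theorem ab_mono (hn : 8 ≤ n) (hP : Pth n c e x m) {s t : ℕ} (hst : s ≤ t) (h : Ab n (x s)) :
    Ab n (x t) := by
  induction t, hst using Nat.le_induction with
  | base => exact h
  | succ t _ ih => exact ab_step hn hP t ih

/-- the north phase -/
def NorthP (n : ℕ) (c e : ℕ → Bool) (x : ℕ → ℤ × ℤ) (s u : ℕ) : Prop :=
  (x u).1 ≤ 0 ∧ 0 < (x u).2 ∧
  (∃ v, s ≤ v ∧ v ≤ u ∧ -4 + (WW c u - WW c v) - (WW e u - WW e v) ≤ 2 * (x u).1) ∧
  2 * (x u).2 ≤ (n : ℤ) - 2 * ((u : ℤ) - s) + (WW c u - WW c s) + (WW e u - WW e s)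

theorem NorthP.short {s t : ℕ}
    (hbig : 4000 * (R + K + 1) ≤ n) (hc : GC K t c) (he : Tube R e t) {u : ℕ} (hsu : s ≤ u)
    (hut : u ≤ t) (hn : NorthP n c e x s u) : (u : ℤ) - s ≤ n := by
  obtain ⟨-, h2, -, h4⟩ := hn
  have hw := GC.win hc hsu hut
  have e1 := Tube.bnd he hut
  have e2 := Tube.bnd he (hsu.trans hut)
  have hbig' : 4000 * ((R : ℤ) + K + 1) ≤ n := by exact_mod_cast hbig
  have hR : (0 : ℤ) ≤ R := Int.natCast_nonneg R
  have hK : (0 : ℤ) ≤ K := Int.natCast_nonneg K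
  by_contra hcon
  push Not at hcon
  set w : ℤ := (u : ℤ) - s with hwdef
  set a : ℤ := WW c u - WW c s with hadef
  have ha : w - 2 * R < a := by linarith [e1.1, e1.2, e2.1, e2.2]
  have hpos : 0 < w - 2 * R := by linarith
  have : (w - 2 * R) ^ 2 < a ^ 2 := by nlinarith
  nlinarith

theorem NorthP.bound {s t : ℕ}
    (hbig : 4000 * (R + K + 1) ≤ n) (hc : GC K t c) (he : Tube R e t) {u : ℕ} (hsu : s ≤ u)
    (hut : u ≤ t) (hn : NorthP n c e x s u) : -(n : ℤ) < 4 * (x u).1 := by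
  have hshort := hn.short hbig hc he hsu hut
  obtain ⟨-, -, ⟨v, hv1, hv2, hv⟩, -⟩ := hn
  have hw := GC.win hc hv2 hut
  have e1 := Tube.bnd he hut
  have e2 := Tube.bnd he (hv2.trans hut)
  have hbig' : 4000 * ((R : ℤ) + K + 1) ≤ n := by exact_mod_cast hbig
  have hR : (0 : ℤ) ≤ R := Int.natCast_nonneg R
  have hK : (0 : ℤ) ≤ K := Int.natCast_nonneg K
  have hv1' : (s : ℤ) ≤ v := by exact_mod_cast hv1
  by_contra hcon
  push Not at hcon
  set a : ℤ := WW c u - WW c v with hadef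
  have ha : (n : ℤ) - 8 - 4 * R ≤ -(2 * a) := by linarith [e1.1, e1.2, e2.1, e2.2]
  have hpos : 0 < (n : ℤ) - 8 - 4 * R := by linarith
  have h1 : ((n : ℤ) - 8 - 4 * R) ^ 2 ≤ 4 * a ^ 2 := by nlinarith
  have h2 : a ^ 2 ≤ K * n := hw.trans (by
    apply mul_le_mul_of_nonneg_left _ hK
    linarith)
  nlinarith

theorem NorthP.step {s t : ℕ} (hP : Pth n c e x m)
    (hbig : 4000 * (R + K + 1) ≤ n) (hc : GC K t c) (he : Tube R e t) {u : ℕ} (hsu : s ≤ u)
    (hut : u + 1 ≤ t) (hn : NorthP n c e x s u) :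
    NorthP n c e x s (u + 1) ∨ Ab n (x (u + 1)) := by
  have hb := hn.bound hbig hc he hsu (by omega)
  obtain ⟨n1, n2, n3, n4⟩ := hbs n (by omega)
  obtain ⟨h1, h2, ⟨v, hv1, hv2, hv⟩, h4⟩ := hn
  obtain ⟨l1, l2⟩ := hP.lin u
  have s1 := sgc (c u)
  have s2 := sgc (e u)
  have key : (x (u + 1)).1 ≤ 0 ∧ ((x u).1 < 0 → 2 * (x (u + 1)).1 = 2 * (x u).1 + sgn (c u) - sgn (e u))
      ∧ (x u).1 - 1 ≤ (x (u + 1)).1 ∧ -1 ≤ (x (u + 1)).2 ∧
      2 * (x (u + 1)).2 ≤ 2 * (x u).2 - 2 + sgn (c u) + sgn (e u) := by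
    unfold ZL SL at *
    omega
  obtain ⟨k1, k2, k3, k4, k5⟩ := key
  by_cases hy : 0 < (x (u + 1)).2
  · left
    refine ⟨k1, hy, ?_, ?_⟩
    · rcases lt_or_eq_of_le h1 with hx | hx
      · refine ⟨v, hv1, by omega, ?_⟩
        rw [k2 hx, WWs, WWs]
        linarith
      · refine ⟨u + 1, by omega, le_refl _, ?_⟩
        simp only [sub_self, add_zero, sub_zero]
        linarith
    · rw [WWs, WWs]
      push_cast
      linarith
  · right
    unfold Ab
    omega

/-- the north phase is short and ends with absorption -/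
theorem north_end {s t : ℕ} (hP : Pth n c e x m)
    (hbig : 4000 * (R + K + 1) ≤ n) (hc : GC K t c) (he : Tube R e t)
    (h1 : (x s).1 ≤ 0) (h1' : -2 ≤ (x s).1) (h2 : 0 < (x s).2) (hst : s ≤ t) :
    (No n (x t) ∧ t ≤ s + n) ∨ Ab n (x t) := by
  have key : ∀ u, s ≤ u → u ≤ t → NorthP n c e x s u ∨ Ab n (x u) := by
    intro u hsu
    induction u, hsu using Nat.le_induction with
    | base =>
      intro _
      left
      refine ⟨h1, h2, ⟨s, le_refl _, le_refl _, ?_⟩, ?_⟩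
      · simp only [sub_self, add_zero, sub_zero]
        linarith
      · have := (hP.bx (by omega) s).1.2.2
        have := hbs n (by omega)
        simp only [sub_self, mul_zero, sub_zero, add_zero]
        linarith
    | succ u hsu ih =>
      intro hut
      rcases ih (by omega) with hn | ha
      · exact hn.step hP hbig hc he hsu hut
      · exact Or.inr (ab_step (by omega) hP _ ha)
  rcases key t hst (le_refl _) with hn | ha
  · left
    have := hn.short hbig hc he hst (le_refl _)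
    exact ⟨⟨hn.1, hn.bound hbig hc he hst (le_refl _), hn.2.1⟩, by omega⟩
  · exact Or.inr ha

theorem east_end {s t : ℕ} (hP : Pth n c e x m)
    (hbig : 4000 * (R + K + 1) ≤ n) (hc : GC K t c) (he : Tube R e t)
    (h1 : (x s).2 ≤ 0) (h1' : -2 ≤ (x s).2) (h2 : 0 < (x s).1) (hst : s ≤ t) :
    (Ea n (x t) ∧ t ≤ s + n) ∨ Ab n (x t) := by
  rcases north_end (hP.swap (by omega)) hbig (GC_not hc) (Tube_not he) h1 h1' h2 hst with h | h
  · exact Or.inl h
  · right
    exact ⟨h.2.1, h.1, by have := h.2.2; simp only [Prod.fst_swap, Prod.snd_swap] at this; omega⟩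

theorem CX_cases (hn : 8 ≤ n) (hP : Pth n c e x m) {s : ℕ} (h : CX x s) :
    ((x s).1 ≤ 0 ∧ -1 ≤ (x s).1 ∧ 0 < (x s).2) ∨ Ab n (x s) ∨ Sh n (x s) := by
  obtain ⟨n1, n2, n3, n4⟩ := hbs n (by omega)
  have hb := hP.bx (by omega) s
  rcases h with h | ⟨hneg, s', rfl, hpos⟩
  · unfold Ab Sh
    omega
  · obtain ⟨l1, l2⟩ := hP.lin s'
    have s1 := sgc (c s')
    have s2 := sgc (e s')
    have hb' := hP.bx (by omega) s'
    unfold Ab Sh
    unfold ZL SL at *
    omega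

theorem touchX : S_TOUCHX := by
  intro n R K s t c e x m hbig hP hc he hst hx
  rcases CX_cases (by omega) hP hx with ⟨h1, h2, h3⟩ | h | h
  · rcases north_end hP hbig hc he h1 (by omega) h3 hst with h | h
    · exact Or.inl h.1
    · exact Or.inr (Or.inl h)
  · exact Or.inr (Or.inl (ab_mono (by omega) hP hst h))
  · exact Or.inr (Or.inr ⟨s, le_refl _, hst, h⟩)

theorem Ab_swap {q : ℤ × ℤ} (h : Ab n q.swap) : Ab n q := by
  unfold Ab at *
  simp only [Prod.fst_swap, Prod.snd_swap] at h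
  omega

theorem Sh_swap {q : ℤ × ℤ} (h : Sh n q.swap) : Sh n q := by
  unfold Sh at *
  simp only [Prod.fst_swap, Prod.snd_swap] at h
  omega

theorem touchY : S_TOUCHY := by
  intro n R K s t c e x m hbig hP hc he hst hx
  have hx' : CX (fun s => (x s).swap) s := hx
  rcases touchX n R K s t _ _ _ _ hbig (hP.swap (by omega)) (GC_not hc) (Tube_not he) hst hx' with
    h | h | ⟨s', h1, h2, h3⟩
  · exact Or.inl h
  · exact Or.inr (Or.inl (Ab_swap h))
  · exact Or.inr (Or.inr ⟨s', h1, h2, Sh_swap h3⟩)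

/-- one round in the shells -/
theorem sh_step (hn : 16 ≤ n) (hP : Pth n c e x m) (t : ℕ) (h : Sh n (x t)) :
    Sh n (x (t + 1)) ∨ ((x (t + 1)).1 ≤ 0 ∧ -2 ≤ (x (t + 1)).1 ∧ 0 < (x (t + 1)).2) ∨
      ((x (t + 1)).2 ≤ 0 ∧ -2 ≤ (x (t + 1)).2 ∧ 0 < (x (t + 1)).1) := by
  obtain ⟨n1, n2, n3, n4⟩ := hbs n (by omega)
  obtain ⟨h1, h2⟩ := hP.lin t
  have s1 := sgc (c t)
  have s2 := sgc (e t)
  have hb := hP.bx (by omega) t
  unfold Sh ZL SL at *
  omega

/-- the shells: either the zombie is in the shells all the time, or it left them at a time `u` to the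
north or to the east -/
theorem shell' {s t : ℕ} (hP : Pth n c e x m)
    (hbig : 4000 * (R + K + 1) ≤ n) (hst : s ≤ t) (h : Sh n (x s)) :
    (∀ u, s ≤ u → u ≤ t → Sh n (x u)) ∨ ∃ u, s < u ∧ u ≤ t ∧ (∀ v, s ≤ v → v < u → Sh n (x v)) ∧
      (((x u).1 ≤ 0 ∧ -2 ≤ (x u).1 ∧ 0 < (x u).2) ∨ ((x u).2 ≤ 0 ∧ -2 ≤ (x u).2 ∧ 0 < (x u).1)) := by
  induction t, hst using Nat.le_induction with
  | base => left; intro u h1 h2; have : u = s := by omega
            rw [this]; exact h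
  | succ t hst ih =>
    rcases ih with ih | ⟨u, h1, h2, h3⟩
    · rcases sh_step (by omega) hP t (ih t hst (le_refl _)) with h' | h'
      · left
        intro u h1 h2
        rcases Nat.lt_or_ge t u with h3 | h3
        · have : u = t + 1 := by omega
          rw [this]; exact h'
        · exact ih u h1 h3
      · right
        exact ⟨t + 1, by omega, le_refl _, fun v h1 h2 => ih v h1 (by omega), h'⟩
    · right
      exact ⟨u, h1, by omega, h3⟩

theorem shell'' {s t : ℕ} (hP : Pth n c e x m)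
    (hbig : 4000 * (R + K + 1) ≤ n) (hc : GC K t c) (he : Tube R e t) (hst : s ≤ t)
    (h : Sh n (x s)) :
    (∀ u, s ≤ u → u ≤ t → Sh n (x u)) ∨ No n (x t) ∨ Ea n (x t) ∨ Ab n (x t) := by
  rcases shell' hP hbig hst h with h | ⟨u, h1, h2, -, h3 | h3⟩
  · exact Or.inl h
  · rcases north_end hP hbig hc he h3.1 h3.2.1 h3.2.2 h2 with h | h
    · exact Or.inr (Or.inl h.1)
    · exact Or.inr (Or.inr (Or.inr h))
  · rcases east_end hP hbig hc he h3.1 h3.2.1 h3.2.2 h2 with h | h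
    · exact Or.inr (Or.inr (Or.inl h.1))
    · exact Or.inr (Or.inr (Or.inr h))

theorem shell : S_SHELL := by
  intro n R K s t c e x m hbig hP hc he hst h
  rcases shell'' hP hbig hc he hst h with h | h
  · exact Or.inl (h t hst (le_refl _))
  · exact Or.inr h

end Pool.Agent.Helper5K9.XE
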